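import Pool.Agent.Helper27.EM.Sheet

/-!
# Project EM (MP_9b3484_nt), row TREE

A 16-adic tree of intervals in which every block loses at most two of its sixteen sub-blocks.
-/

set_option autoImplicit false

open Finset

namespace Pool.Agent.Helper99.EM

open Pool.Agent.Helper27.EM

open scoped Classical in
/-- the blocks which meet a set whose close elements are very close -/
theorem bad_card (L X : ℕ) (E : Set ℕ)
    (hE : ∀ x ∈ E, ∀ x' ∈ E, x < x' → x' < x + L * 16 → x' < x + L) :
    ((range 16).filter (fun k => ∃ x ∈ E, X + k * L ≤ x ∧ x < X + k * L + L)).card ≤ 2 := by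
  have hclose : ∀ k < 16, ∀ k' < 16, (∃ x ∈ E, X + k * L ≤ x ∧ x < X + k * L + L) →
      (∃ x ∈ E, X + k' * L ≤ x ∧ x < X + k' * L + L) → k' ≤ k + 1 := by
    rintro k hk k' hk' ⟨x, hx, h1, h2⟩ ⟨x', hx', h3, h4⟩
    by_contra hcon
    push Not at hcon
    have h5 : (k + 2) * L ≤ k' * L := Nat.mul_le_mul_right L hcon
    have h6 : k' * L + L ≤ L * 16 := by
      calc k' * L + L = (k' + 1) * L := by ring
        _ ≤ 16 * L := Nat.mul_le_mul_right L hk'
        _ = L * 16 := by ring
    have h7 : (k + 2) * L = k * L + 2 * L := by ring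
    have h8 := hE x hx x' hx' (by omega) (by omega)
    omega
  set S := (range 16).filter (fun k => ∃ x ∈ E, X + k * L ≤ x ∧ x < X + k * L + L) with hS
  rcases S.eq_empty_or_nonempty with h0 | hne
  · rw [h0]
    simp
  · set k₀ := S.min' hne with hk₀
    have hm := S.min'_mem hne
    rw [← hk₀] at hm
    have hsub : S ⊆ {k₀, k₀ + 1} := by
      intro k hk
      have h1 : k₀ ≤ k := S.min'_le k hk
      rw [hS, mem_filter, mem_range] at hk hm
      have h2 := hclose k₀ hm.1 k hk.1 hm.2 hk.2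
      rw [mem_insert, mem_singleton]
      omega
    exact (card_le_card hsub).trans card_le_two

open scoped Classical in
theorem tree_aux (M : ℕ) (T : Set ℕ) (E : ℕ → Set ℕ) (hT : ∀ X, ∃ x ∈ T, X ≤ x ∧ x < X + M) :
    ∀ J : ℕ, (∀ i, 1 ≤ i → i ≤ J → ∀ x ∈ E i, ∀ x' ∈ E i, x < x' → x' < x + M * 16 ^ i →
      x' < x + M * 16 ^ (i - 1)) → ∀ X : ℕ, ∃ A : Finset ℕ, A.card = 14 ^ J ∧
      (∀ x ∈ A, x ∈ T ∧ X ≤ x ∧ x < X + M * 16 ^ J ∧ ∀ i, 1 ≤ i → i ≤ J → x ∉ E i) ∧
      ∀ (t N : ℕ) (F : Set ℕ), t ≤ J →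
        (∀ (s : ℕ) (U : Finset ℕ), (∀ x ∈ U, x ∈ T ∧ x ∈ F ∧ s ≤ x ∧ x < s + M * 16 ^ t) →
          U.card ≤ N) → (A.filter (fun x => x ∈ F)).card ≤ N * 14 ^ (J - t) := by
  intro J
  induction J with
  | zero =>
    intro _ X
    obtain ⟨x, hx, h1, h2⟩ := hT X
    refine ⟨{x}, by simp, ?_, ?_⟩
    · intro z hz
      rw [mem_singleton] at hz
      subst hz
      refine ⟨hx, h1, by simpa using h2, ?_⟩
      intro i hi1 hi2
      omega
    · intro t N F ht hN
      have ht0 : t = 0 := by omega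
      subst ht0
      have := hN X (({x} : Finset ℕ).filter (fun x => x ∈ F)) (by
        intro z hz
        rw [mem_filter, mem_singleton] at hz
        obtain ⟨rfl, hz2⟩ := hz
        exact ⟨hx, hz2, h1, by simpa using h2⟩)
      simpa using this
  | succ J ih =>
    intro hE X
    have ih' := ih (fun i h1 h2 => hE i h1 (by omega))
    have hbad := bad_card (M * 16 ^ J) X (E (J + 1)) (by
      intro x hx x' hx' h1 h2
      have h3 := hE (J + 1) (by omega) le_rfl x hx x' hx' h1 (by rw [pow_succ, ← mul_assoc]; exact h2)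
      simpa using h3)
    set S := (range 16).filter (fun k => ∃ x ∈ E (J + 1), X + k * (M * 16 ^ J) ≤ x ∧
      x < X + k * (M * 16 ^ J) + M * 16 ^ J) with hS
    have hgood : 14 ≤ ((range 16) \ S).card := by
      have h1 := le_card_sdiff S (range 16)
      rw [card_range] at h1
      omega
    obtain ⟨G, hG, hGc⟩ := exists_subset_card_eq hgood
    choose A hAc hA hAF using fun k : ℕ => ih' (X + k * (M * 16 ^ J))
    have hdisj : ∀ k ∈ G, ∀ k' ∈ G, k ≠ k' → Disjoint (A k) (A k') := by
      intro k _ k' _ hkk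
      rw [Finset.disjoint_left]
      intro z hz hz'
      obtain ⟨-, h1, h2, -⟩ := hA k z hz
      obtain ⟨-, h3, h4, -⟩ := hA k' z hz'
      rcases lt_or_gt_of_ne hkk with h | h
      · have h5 : (k + 1) * (M * 16 ^ J) ≤ k' * (M * 16 ^ J) := Nat.mul_le_mul_right _ h
        rw [add_mul, one_mul] at h5
        omega
      · have h5 : (k' + 1) * (M * 16 ^ J) ≤ k * (M * 16 ^ J) := Nat.mul_le_mul_right _ h
        rw [add_mul, one_mul] at h5
        omega
    have hin : ∀ x ∈ G.biUnion A, x ∈ T ∧ X ≤ x ∧ x < X + M * 16 ^ (J + 1) ∧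
        ∀ i, 1 ≤ i → i ≤ J + 1 → x ∉ E i := by
      intro x hx
      rw [mem_biUnion] at hx
      obtain ⟨k, hk, hx⟩ := hx
      obtain ⟨h1, h2, h3, h4⟩ := hA k x hx
      have hk2 := hG hk
      rw [mem_sdiff, mem_range, hS, mem_filter, mem_range] at hk2
      have h5 : (k + 1) * (M * 16 ^ J) ≤ 16 * (M * 16 ^ J) := Nat.mul_le_mul_right _ hk2.1
      rw [add_mul, one_mul] at h5
      have h6 : M * 16 ^ (J + 1) = 16 * (M * 16 ^ J) := by ring
      refine ⟨h1, by omega, by omega, ?_⟩
      intro i hi1 hi2 hxE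
      rcases Nat.lt_or_ge J i with h7 | h7
      · have h8 : i = J + 1 := by omega
        subst h8
        exact hk2.2 ⟨hk2.1, x, hxE, h2, h3⟩
      · exact h4 i hi1 h7 hxE
    refine ⟨G.biUnion A, ?_, hin, ?_⟩
    · rw [card_biUnion hdisj, sum_congr rfl (fun k _ => hAc k), sum_const, hGc, smul_eq_mul]
      ring
    · intro t N F ht hN
      rcases Nat.lt_or_ge J t with h7 | h7
      · have h8 : t = J + 1 := by omega
        subst h8
        have := hN X ((G.biUnion A).filter (fun x => x ∈ F)) (by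
          intro x hx
          rw [mem_filter] at hx
          obtain ⟨h1, h2, h3, -⟩ := hin x hx.1
          exact ⟨h1, hx.2, h2, h3⟩)
        simpa using this
      · have h8 : (G.biUnion A).filter (fun x => x ∈ F) ⊆
            G.biUnion (fun k => (A k).filter (fun x => x ∈ F)) := by
          intro x hx
          rw [mem_filter, mem_biUnion] at hx
          obtain ⟨⟨k, hk, hx⟩, hxF⟩ := hx
          rw [mem_biUnion]
          exact ⟨k, hk, mem_filter.2 ⟨hx, hxF⟩⟩
        calc ((G.biUnion A).filter (fun x => x ∈ F)).card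
            ≤ (G.biUnion (fun k => (A k).filter (fun x => x ∈ F))).card := card_le_card h8
          _ ≤ ∑ k ∈ G, ((A k).filter (fun x => x ∈ F)).card := card_biUnion_le
          _ ≤ ∑ _k ∈ G, N * 14 ^ (J - t) := sum_le_sum (fun k _ => hAF k t N F h7 hN)
          _ = N * 14 ^ (J + 1 - t) := by
              rw [sum_const, hGc, smul_eq_mul, show J + 1 - t = (J - t) + 1 by omega]
              ring

theorem TREE : ST_TREE := by
  classical
  intro M J m T E F t N _ hT hE ht hF hsum X
  obtain ⟨A, hAc, hA, hAF⟩ := tree_aux M T E hT J hE X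
  by_contra hcon
  push Not at hcon
  have hsub : A ⊆ (range m).biUnion (fun j => A.filter (fun x => x ∈ F j)) := by
    intro x hx
    obtain ⟨h1, h2, h3, h4⟩ := hA x hx
    obtain ⟨j, hj, hxj⟩ := hcon x h1 h2 h3 h4
    rw [mem_biUnion]
    exact ⟨j, mem_range.2 hj, mem_filter.2 ⟨hx, hxj⟩⟩
  have h1 : A.card ≤ ∑ j ∈ range m, N j * 14 ^ (J - t j) :=
    calc A.card ≤ ((range m).biUnion (fun j => A.filter (fun x => x ∈ F j))).card :=
          card_le_card hsub
      _ ≤ ∑ j ∈ range m, (A.filter (fun x => x ∈ F j)).card := card_biUnion_le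
      _ ≤ _ := sum_le_sum (fun j hj => hAF (t j) (N j) (F j) (ht j (mem_range.1 hj))
          (hF j (mem_range.1 hj)))
  omega

end Pool.Agent.Helper99.EM
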